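import Pool.Agent.Helper84.TS.Fin
import Pool.Agent.Helper44.TS.CaseThree
import Pool.Agent.Helper44.TS.Mixed
import Pool.Agent.Helper44.NE.MixedII
import Pool.Agent.Helper58.TS.MixedI
import Pool.Agent.Helper59.NE.Trees
import Pool.Agent.Helper65.TS.TallH3
import Pool.Agent.Helper53.TS.OneTall
import Pool.Agent.Helper62.TW.Cells
import Pool.Agent.Helper19.TS.CaseOL0
import Pool.Agent.Helper19.TS.CaseOL1Ar
import Pool.Agent.Helper83.OL.Case
import Pool.Agent.Helper78.OD.BsFin
import Pool.Agent.Helper32.TS.RpFin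
import Pool.Agent.Helper32.TS.RsEnd
import Pool.Agent.Helper74.TS.KindB
import Pool.Agent.Helper95.TS.OL2Bsp
import Pool.Agent.Helper36.TV.TwoFar
import Pool.Agent.Helper78.TS.Case2311
import Pool.Agent.Helper56.TS.Case2341
import Pool.Agent.Helper23.TS.Case2143
import Pool.Agent.Helper65.TS.Type2112
import Pool.Agent.Helper47.TS.Case2113

/-!
# The finite-dimensional inequality `FD (613/200)`
-/

set_option autoImplicit false

namespace Pool.Agent.Helper84.TT

open Pool.Agent.Helper84.TS Pool.Agent.Helper74.TS Pool.Agent.Helper36.TS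

/-- **The finite-dimensional inequality.** -/
theorem fd : FD (613 / 200) :=
  fd_of_cases Pool.Agent.Helper44.TS.caseThree
    (caseTwo_of (Pool.Agent.Helper62.TW.caseTwoLow_of_NE Pool.Agent.Helper59.NE.twoLowNE)
      (Pool.Agent.Helper44.TS.caseTwoMixed_of Pool.Agent.Helper58.TS.mixedI
        Pool.Agent.Helper44.NE.mixedII) Pool.Agent.Helper65.TS.caseTwoTall)
    (caseOneLow_of_w Pool.Agent.Helper19.TS.ol0' Pool.Agent.Helper19.TS.ol1Ar
      Pool.Agent.Helper83.OL.ol1Br Pool.Agent.Helper78.OD.ol1Bs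
      Pool.Agent.Helper32.TS.ol2Brp Pool.Agent.Helper32.TS.ol2Brs
      Pool.Agent.Helper95.TS.ol2Bsp ol2Bss)
    Pool.Agent.Helper53.TS.caseOneTall Pool.Agent.Helper36.TV.caseTwoFar
    Pool.Agent.Helper78.TS.caseT2311 Pool.Agent.Helper56.TS.caseT2341
    Pool.Agent.Helper23.TS.caseT2143 Pool.Agent.Helper65.TS.caseT2112
    Pool.Agent.Helper47.TS.caseT2113

end Pool.Agent.Helper84.TT
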